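import Mathlib
import Pool.Agent.H84.ZC

namespace Pool.Agent.Results.MP_19adc1_gt.No

open Pool.Agent.H84.ZMDefs

theorem result : ¬ ∃ τ : TopologicalSpace ℤ, @IsTopologicalAddGroup ℤ τ _ ∧
    @TopologicalSpace.MetrizableSpace ℤ τ ∧ Precompact τ ∧ Mackey τ :=
  fun ⟨τ, a, b, c, d⟩ => Pool.Agent.H84.ZC.not_mackey τ a b c d

end Pool.Agent.Results.MP_19adc1_gt.No
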